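import Pool.Agent.L5helper31.TG.Defs

/-!
# The equality case of the bound for the volume
-/

set_option autoImplicit false

open MeasureTheory Finset

namespace Pool.Agent.L5helper31.TG

/-- The equality case, from the value of one integral. -/
theorem bath_eq_of {n : ℕ} (J : Finset (Fin n)) (K : Set (Fin n → ℝ)) (hK : IsClosed K)
    (hv : Convex ℝ K) (hb : Bornology.IsBounded K) (h0 : ∀ y ∈ K, ∀ i, 0 ≤ y i)
    (hJ : ∀ y ∈ K, ∑ i ∈ J, y i ≤ J.card + 1)
    (hc : ∀ i, ∫ y in K, y i = volume.real K) (he : bd J.card Jᶜ.card ≤ volume.real K)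
    (hint : ∫⁻ y : Fin n → ℝ, Set.indicator {y : Fin n → ℝ | (∀ i, 0 ≤ y i) ∧ ∑ i ∈ J, y i ≤ J.card + 1}
      (fun y => ENNReal.ofReal ((Jᶜ.card : ℝ) + 1 - ∑ i ∈ Jᶜ, y i)) y ≤
        ENNReal.ofReal (bd J.card Jᶜ.card)) :
    K = {y : Fin n → ℝ | (∀ i, 0 ≤ y i) ∧ ∑ i ∈ J, y i ≤ J.card + 1 ∧
      ∑ i ∈ Jᶜ, y i ≤ Jᶜ.card + 1} := by
  classical
  set m : ℝ := (J.card : ℝ) with hm
  set z : ℝ := (Jᶜ.card : ℝ) with hz
  set g : (Fin n → ℝ) → ℝ := fun y => z + 1 - ∑ i ∈ Jᶜ, y i with hg
  have hm0 : 0 ≤ m := Nat.cast_nonneg _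
  have hz0 : 0 ≤ z := Nat.cast_nonneg _
  have hgc : Continuous g := by
    rw [hg]; fun_prop
  have hKc : IsCompact K := Metric.isCompact_of_isClosed_isBounded hK hb
  have hKm : MeasurableSet K := hK.measurableSet
  have hfin : volume K ≠ ⊤ := hKc.measure_lt_top.ne
  have hgi : IntegrableOn g K := hgc.continuousOn.integrableOn_compact hKc
  have hyi : ∀ i, IntegrableOn (fun y : Fin n → ℝ => y i) K := fun i =>
    (continuous_apply i).continuousOn.integrableOn_compact hKc
  -- the integral of `g`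
  have hgint : ∫ y in K, g y = volume.real K := by
    have h1 : ∫ y in K, g y = ∫ y in K, ((z + 1) - ∑ i ∈ Jᶜ, y i) := rfl
    rw [h1, integral_sub (integrable_const_iff.2 (Or.inr (by
        rw [isFiniteMeasure_restrict]; exact hfin)))
      (integrable_finsetSum _ fun i _ => hyi i), integral_finsetSum _ fun i _ => hyi i,
      Finset.sum_congr rfl fun i _ => hc i, Finset.sum_const, nsmul_eq_mul, integral_const,
      smul_eq_mul, measureReal_restrict_apply_univ, ← hz]
    ring
  set R : Set (Fin n → ℝ) := {y | (∀ i, 0 ≤ y i) ∧ ∑ i ∈ J, y i ≤ m + 1} with hR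
  have hRm : MeasurableSet R := by
    have h1 : R = (⋂ i, {y : Fin n → ℝ | 0 ≤ y i}) ∩ {y | ∑ i ∈ J, y i ≤ m + 1} := by
      ext y; simp [hR]
    rw [h1]
    refine (MeasurableSet.iInter fun i => ?_).inter ?_
    · exact measurableSet_le measurable_const (measurable_pi_apply i)
    · exact measurableSet_le (Finset.measurable_sum _ fun i _ => measurable_pi_apply i)
        measurable_const
  have hKR : K ⊆ R := fun y hy => ⟨h0 y hy, hJ y hy⟩
  set G : (Fin n → ℝ) → ENNReal := fun y => ENNReal.ofReal (g y) with hG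
  have hGm : Measurable G := hgc.measurable.ennreal_ofReal
  have hRint : ∫⁻ y in R, G y ≤ ENNReal.ofReal (bd J.card Jᶜ.card) := by
    rw [← lintegral_indicator hRm]
    exact hint
  have hbd : 0 < bd J.card Jᶜ.card := by
    rw [bd]; positivity
  have hposint : Integrable (fun y => max (g y) 0) (volume.restrict K) := hgi.pos_part
  have hle1 : ∫ y in K, g y ≤ ∫ y in K, max (g y) 0 :=
    integral_mono hgi hposint fun y => le_max_left _ _
  have heq1 : ENNReal.ofReal (∫ y in K, max (g y) 0) = ∫⁻ y in K, G y := by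
    rw [ofReal_integral_eq_lintegral_ofReal hposint
      (Filter.Eventually.of_forall fun y => le_max_right _ _)]
    refine lintegral_congr fun y => ?_
    rw [hG]
    simp only
    rcases le_total (g y) 0 with h | h
    · rw [max_eq_right h, ENNReal.ofReal_zero, ENNReal.ofReal_of_nonpos h]
    · rw [max_eq_left h]
  have hle2 : ∫⁻ y in K, G y ≤ ∫⁻ y in R, G y := lintegral_mono_set hKR
  have hle3 : ∫ y in K, max (g y) 0 ≤ bd J.card Jᶜ.card := by
    rw [← ENNReal.ofReal_le_ofReal_iff hbd.le, heq1]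
    exact hle2.trans hRint
  have hK1 : ∫ y in K, g y = ∫ y in K, max (g y) 0 := by
    refine le_antisymm hle1 ?_
    rw [hgint]
    exact hle3.trans he
  have hK2 : ∫ y in K, max (g y) 0 = bd J.card Jᶜ.card := by
    refine le_antisymm hle3 ?_
    rw [← hK1, hgint]
    exact he
  -- (a)
  have ha : volume (K ∩ {y | g y < 0}) = 0 := by
    have h1 : ∫ y in K, (max (g y) 0 - g y) = 0 := by
      rw [integral_sub hposint hgi, hK1, sub_self]
    rw [integral_eq_zero_iff_of_nonneg (fun y => sub_nonneg.2 (le_max_left _ _))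
      (hposint.sub hgi)] at h1
    have h2 : ∀ᵐ y ∂(volume.restrict K), ¬ g y < 0 := by
      filter_upwards [h1] with y hy hlt
      rw [max_eq_right hlt.le] at hy
      simp only [Pi.zero_apply] at hy
      linarith
    rw [ae_iff] at h2
    simp only [not_not] at h2
    rw [Measure.restrict_apply (measurableSet_lt hgc.measurable measurable_const)] at h2
    rw [Set.inter_comm]
    exact h2
  -- (b)
  have hb' : volume ((R \ K) ∩ {y | 0 < g y}) = 0 := by
    have h1 : ∫⁻ y in R, G y = (∫⁻ y in K, G y) + ∫⁻ y in R \ K, G y := by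
      rw [← lintegral_union (hRm.diff hKm) Set.disjoint_sdiff_right, Set.union_sdiff_cancel hKR]
    have h2 : ∫⁻ y in K, G y = ENNReal.ofReal (bd J.card Jᶜ.card) := by
      rw [← heq1, hK2]
    have h3 : ∫⁻ y in R \ K, G y = 0 := by
      rw [h1, h2] at hRint
      by_contra hne
      have h4 : ENNReal.ofReal (bd J.card Jᶜ.card) <
          ENNReal.ofReal (bd J.card Jᶜ.card) + ∫⁻ y in R \ K, G y :=
        ENNReal.lt_add_right ENNReal.ofReal_ne_top hne
      exact absurd hRint (not_le.2 h4)
    rw [lintegral_eq_zero_iff hGm] at h3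
    have h5 : ∀ᵐ y ∂(volume.restrict (R \ K)), ¬ 0 < g y := by
      filter_upwards [h3] with y hy hlt
      rw [hG] at hy
      simp only [Pi.zero_apply, ENNReal.ofReal_eq_zero] at hy
      linarith
    rw [ae_iff] at h5
    simp only [not_not] at h5
    rw [Measure.restrict_apply (measurableSet_lt measurable_const hgc.measurable)] at h5
    rw [Set.inter_comm]
    exact h5
  -- the open set
  set O : Set (Fin n → ℝ) := {y | (∀ i, 0 < y i) ∧ ∑ i ∈ J, y i < m + 1 ∧ 0 < g y} with hO
  have hOo : IsOpen O := by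
    have h1 : O = (⋂ i, {y : Fin n → ℝ | 0 < y i}) ∩ ({y | ∑ i ∈ J, y i < m + 1} ∩
        {y | 0 < g y}) := by
      ext y; simp [hO]
    rw [h1]
    refine (isOpen_iInter_of_finite fun i => ?_).inter (IsOpen.inter ?_ ?_)
    · exact isOpen_lt continuous_const (continuous_apply i)
    · exact isOpen_lt (continuous_finsetSum _ fun i _ => continuous_apply i) continuous_const
    · exact isOpen_lt continuous_const hgc
  have hOK : O ⊆ K := by
    have h1 : IsOpen (O \ K) := hOo.sdiff hK
    have h2 : volume (O \ K) = 0 := by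
      refine measure_mono_null ?_ hb'
      rintro y ⟨⟨hy1, hy2, hy3⟩, hy4⟩
      exact ⟨⟨⟨fun i => (hy1 i).le, hy2.le⟩, hy4⟩, hy3⟩
    have h3 := h1.eq_empty_of_measure_zero h2
    exact Set.sdiff_eq_empty.1 h3
  set c : Fin n → ℝ := fun _ => 1 / 2 with hcdef
  have hgcv : 0 < g c := by
    rw [hg]
    simp only [hcdef, Finset.sum_const, nsmul_eq_mul, ← hz]
    linarith
  have hcO : c ∈ O := by
    refine ⟨fun i => by rw [hcdef]; norm_num, ?_, hgcv⟩
    simp only [hcdef, Finset.sum_const, nsmul_eq_mul, ← hm]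
    linarith
  have hgaff : ∀ (t : ℝ) (y : Fin n → ℝ), g ((1 - t) • y + t • c) = (1 - t) * g y + t * g c := by
    intro t y
    rw [hg]
    simp only [Pi.add_apply, Pi.smul_apply, smul_eq_mul, Finset.sum_add_distrib,
      ← Finset.mul_sum]
    ring
  ext y
  constructor
  · intro hy
    refine ⟨h0 y hy, hJ y hy, ?_⟩
    by_contra hlt
    have hgy : g y < 0 := by
      rw [hg]; simp only; linarith
    have hcK : c ∈ interior K := mem_interior.2 ⟨O, hOK, hOo, hcO⟩
    set t : ℝ := -g y / (2 * (-g y + g c)) with ht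
    have hden : 0 < -g y + g c := by linarith
    have ht0 : 0 < t := by rw [ht]; apply div_pos <;> linarith
    have ht1 : t ≤ 1 := by
      rw [ht, div_le_one (by linarith)]; linarith
    have h1 : (1 - t) • y + t • c ∈ interior K :=
      hv.combo_self_interior_mem_interior hy hcK (by linarith) ht0 (by ring)
    have h2 : g ((1 - t) • y + t • c) < 0 := by
      rw [hgaff]
      have h3 : t * (-g y + g c) = -g y / 2 := by
        rw [ht]; field_simp
      nlinarith
    have h4 : IsOpen (interior K ∩ {y | g y < 0}) :=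
      isOpen_interior.inter (isOpen_lt hgc continuous_const)
    have h5 : volume (interior K ∩ {y | g y < 0}) = 0 :=
      measure_mono_null (Set.inter_subset_inter_left _ interior_subset) ha
    have h6 := h4.eq_empty_of_measure_zero h5
    exact Set.eq_empty_iff_forall_notMem.1 h6 _ ⟨h1, h2⟩
  · rintro ⟨hy1, hy2, hy3⟩
    have hgy : 0 ≤ g y := by
      rw [hg]; simp only; linarith
    have h1 : Filter.Tendsto (fun t : ℝ => (1 - t) • y + t • c) (nhdsWithin 0 (Set.Ioi 0))
        (nhds y) := by
      have h2 : Continuous fun t : ℝ => (1 - t) • y + t • c := by fun_prop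
      have h3 := h2.tendsto 0
      simp only [sub_zero, one_smul, zero_smul, add_zero] at h3
      exact h3.mono_left nhdsWithin_le_nhds
    refine hK.mem_of_tendsto h1 ?_
    have h4 : ∀ᶠ t : ℝ in nhdsWithin 0 (Set.Ioi 0), t ∈ Set.Ioc (0 : ℝ) 1 :=
      Ioc_mem_nhdsGT one_pos
    filter_upwards [h4] with t ht
    apply hOK
    refine ⟨fun i => ?_, ?_, ?_⟩
    · simp only [Pi.add_apply, Pi.smul_apply, smul_eq_mul, hcdef]
      have := mul_nonneg (sub_nonneg.2 ht.2) (hy1 i)
      have := ht.1
      linarith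
    · simp only [Pi.add_apply, Pi.smul_apply, smul_eq_mul, Finset.sum_add_distrib,
        ← Finset.mul_sum]
      have h5 : ∑ i ∈ J, c i < m + 1 := hcO.2.1
      have h6 := mul_le_mul_of_nonneg_left hy2 (sub_nonneg.2 ht.2)
      have h7 := mul_lt_mul_of_pos_left h5 ht.1
      nlinarith
    · rw [hgaff]
      have := mul_nonneg (sub_nonneg.2 ht.2) hgy
      have := mul_pos ht.1 hgcv
      linarith

end Pool.Agent.L5helper31.TG
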